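import Pool.Agent.Helper82.SG.St

/-!
# Project SG (MP_e46579_co), module LOW: spanning trees cannot shrink much
-/

set_option autoImplicit false

namespace Pool.Agent.Helper25.SG

open Finset Real MeasureTheory Pool.Agent.Helper77.Steiner Pool.Agent.Helper82.SG
open Pool.Agent.Helper18.GP (nlen NConn)
open scoped ENNReal

private theorem len_le {E F : Type} [MetricSpace E] [MetricSpace F] (g : F → E) (s c : ℝ) (m : List (F × F))
    (h : ∀ e ∈ m, s * dist (g e.1) (g e.2) ≤ dist e.1 e.2 + c) :
    s * nlen dist (m.map fun e => (g e.1, g e.2)) ≤ nlen dist m + c * m.length := by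
  induction m with
  | nil => simp [nlen]
  | cons a m ih =>
    have h1 := ih fun e he => h e (List.mem_cons_of_mem a he)
    have h2 := h a List.mem_cons_self
    simp only [nlen, List.map_cons, List.sum_cons, List.length_cons] at h1 h2 ⊢
    push_cast
    linarith

private theorem eqv_map {E F : Type} (g : F → E) (m : List (F × F)) {x y : F}
    (h : Relation.EqvGen (fun x y => (x, y) ∈ m) x y) :
    Relation.EqvGen (fun x y => (x, y) ∈ m.map fun e => (g e.1, g e.2)) (g x) (g y) := by
  induction h with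
  | rel x y h => exact Relation.EqvGen.rel _ _ (List.mem_map.2 ⟨(x, y), h, rfl⟩)
  | refl x => exact Relation.EqvGen.refl _
  | symm x y _ ih => exact Relation.EqvGen.symm _ _ ih
  | trans x y z _ _ ih1 ih2 => exact Relation.EqvGen.trans _ _ _ ih1 ih2

theorem hLOW (hMST : StMST) : StLOW := by
  intro E F _ _ _ A f s c hA hs _hc hinj hd
  obtain ⟨m, m1, m2, m3, m4⟩ := hMST (A.image f) (hA.image f)
  have hne : Nonempty E := ⟨hA.choose⟩
  set g : F → E := Function.invFunOn f (A : Set E) with hg
  have hgf : ∀ a ∈ A, g (f a) = a := fun a ha => hinj.leftInvOn_invFunOn (Finset.mem_coe.2 ha)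
  have hm' : ∀ e ∈ m, g e.1 ∈ A ∧ g e.2 ∈ A ∧ s * dist (g e.1) (g e.2) ≤ dist e.1 e.2 + c := by
    intro e he
    obtain ⟨h1, h2, -⟩ := m1 e he
    obtain ⟨a, ha, ea⟩ := Finset.mem_image.1 h1
    obtain ⟨b, hb, eb⟩ := Finset.mem_image.1 h2
    rw [← ea, ← eb, hgf a ha, hgf b hb]
    exact ⟨ha, hb, by linarith [hd a ha b hb]⟩
  have key : mstLen A ≤ nlen dist (m.map fun e => (g e.1, g e.2)) := by
    apply Pool.Agent.Helper77.GP.mstLen_le_list A hA
    · intro e he
      obtain ⟨e', he', rfl⟩ := List.mem_map.1 he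
      exact ⟨(hm' e' he').1, (hm' e' he').2.1⟩
    · intro a ha b hb
      have h := eqv_map g m (m2 (f a) (by exact_mod_cast Finset.mem_image_of_mem f (Finset.mem_coe.1 ha)) (f b)
        (by exact_mod_cast Finset.mem_image_of_mem f (Finset.mem_coe.1 hb)))
      rw [hgf a ha, hgf b hb] at h
      exact h
  have h1 := len_le g s c m fun e he => (hm' e he).2.2
  have h2 : (m.length : ℝ) = A.card - 1 := by
    rw [Finset.card_image_of_injOn hinj] at m3
    rw [← m3]
    push_cast
    ring
  rw [h2, m4] at h1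
  have h3 := mul_le_mul_of_nonneg_left key hs.le
  linarith

end Pool.Agent.Helper25.SG
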